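import Mathlib

/-!
Project CY (helper739): S19209, color-symmetric 1-dependent q-colorings of cycles, q ≥ 5.
Definitions and the exact statements of all parts. Everything has been checked numerically.
-/

set_option autoImplicit false

namespace Pool.Agent.W739.CY

open Finset

section defs

variable {C : Type} [DecidableEq C]

/-- neighbouring walls/letters are compatible: different, or the left one is absent -/
def ok (a b : Option C) : Prop := a = none ∨ a ≠ b

instance (a b : Option C) : Decidable (ok a b) := by unfold ok; infer_instance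

/-- the word `a w b` is proper (`none` is no wall) -/
def Pr : Option C → List C → Option C → Prop
  | a, [], b => ok a b
  | a, x :: u, b => ok a (some x) ∧ Pr (some x) u b

instance decPr : ∀ (a : Option C) (u : List C) (b : Option C), Decidable (Pr a u b)
  | a, [], b => by unfold Pr; infer_instance
  | a, x :: u, b => by
      unfold Pr
      haveI := decPr (some x) u b
      infer_instance

/-- `spl f w` = sum of `f v c u` over all splittings `w = v ++ c :: u` -/
def spl : (List C → C → List C → ℝ) → List C → ℝ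
  | _, [] => 0
  | f, x :: w => f [] x w + spl (fun v c u => f (x :: v) c u) w

noncomputable def Fn (p : ℝ) : ℕ → Option C → List C → Option C → ℝ
  | 0, a, w, b => if Pr a w b then 1 else 0
  | n + 1, a, w, b =>
      if Pr a w b then
        spl (fun v _ u => p ^ u.length * Fn p n a (v ++ u) b) w / (1 - p ^ (n + 1))
      else 0

/-- building function of the word `w` between the walls `a` and `b` -/
noncomputable def F (p : ℝ) (a : Option C) (w : List C) (b : Option C) : ℝ :=
  Fn p w.length a w b

noncomputable def F1 (p : ℝ) (a : Option C) (w : List C) (b : Option C) : ℝ :=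
  p ^ w.length * F p a w b

noncomputable def Gn (p z : ℝ) : ℕ → Option C → List C → Option C → ℝ
  | 0, a, w, b => F1 p a w b
  | n + 1, a, w, b =>
      F1 p a w b + z * spl (fun v c u => F1 p a v (some c) * Gn p z n (some c) u b) w

/-- chains of records from `a` to `b` -/
noncomputable def G (p z : ℝ) (a : Option C) (w : List C) (b : Option C) : ℝ :=
  Gn p z w.length a w b

/-- the cyclic function -/
noncomputable def T (p z : ℝ) (w : List C) : ℝ :=
  spl (fun v j rest =>
    spl (fun g k u => z ^ 2 * G p z (some j) g (some k) * F1 p (some k) (u ++ v) (some j)) rest) w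

/-- sum over all fillings of the stars (`none`) -/
def st [Fintype C] : (List C → ℝ) → List (Option C) → ℝ
  | f, [] => f []
  | f, none :: s => ∑ x : C, st (fun w => f (x :: w)) s
  | f, some x :: s => st (fun w => f (x :: w)) s

end defs

noncomputable def al {C : Type} [DecidableEq C] (p : ℝ) (b : Option C) : ℝ :=
  p⁻¹ + (if b = none then 1 else 0)

noncomputable def be {C : Type} [DecidableEq C] (p : ℝ) (a : Option C) : ℝ :=
  1 + (if a = none then p⁻¹ else 0)

/-- standing assumption on the parameter -/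
def Good (p : ℝ) : Prop := 0 < p ∧ p ≠ 1

theorem Good.pow {p : ℝ} (h : Good p) {n : ℕ} (hn : n ≠ 0) : p ^ n ≠ 1 := by
  intro h1
  exact h.2 ((pow_eq_one_iff_of_nonneg h.1.le hn).1 h1)

theorem Good.sub {p : ℝ} (h : Good p) (n : ℕ) : 1 - p ^ (n + 1) ≠ 0 :=
  sub_ne_zero.2 (Ne.symm (h.pow (Nat.succ_ne_zero n)))

theorem Good.ne {p : ℝ} (h : Good p) : p ≠ 0 := h.1.ne'

/-- DEL: basic facts -/
def S_DEL : Prop := ∀ (C : Type) [DecidableEq C] (p : ℝ) (_ : Good p) (a b : Option C),
  F p a ([] : List C) b = (if ok a b then 1 else 0) ∧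
  (∀ w : List C, ¬ Pr a w b → F p a w b = 0) ∧
  (∀ w : List C, ¬ ok a b → F p a w b = 0) ∧
  (∀ w : List C, w ≠ [] → Pr a w b →
    (1 - p ^ w.length) * F p a w b = spl (fun v _ u => p ^ u.length * F p a (v ++ u) b) w) ∧
  (∀ (w : List C) (σ : Equiv.Perm C), F p (a.map σ) (w.map σ) (b.map σ) = F p a w b)

/-- T1: decomposition at the first arrival -/
def S_T1 : Prop := ∀ (C : Type) [DecidableEq C] (p : ℝ) (_ : Good p) (a b : Option C)
  (w : List C), w ≠ [] → ok a b →
  (1 - p ^ w.length) * F p a w b =
    spl (fun v c u => p ^ v.length * F p a v (some c) * F p (some c) u b) w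

/-- VL -/
def S_VL : Prop := ∀ (C : Type) [DecidableEq C] (p : ℝ) (_ : Good p) (a b : Option C)
  (w : List C), ok a b →
  F p a w b = F p a w none -
    spl (fun v c u => if some c = b then
      F p a v b * F p b u none / (1 - p ^ (u.length + 1)) else 0) w

/-- VR -/
def S_VR : Prop := ∀ (C : Type) [DecidableEq C] (p : ℝ) (_ : Good p) (a b : Option C)
  (w : List C), ok a b →
  F p a w b = F p none w b -
    spl (fun v c u => if some c = a then
      p ^ v.length / (1 - p ^ (v.length + 1)) * F p none v a * F p a u b else 0) w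

/-- GAP: sum over the colour of one letter -/
def S_GAP : Prop := ∀ (C : Type) [DecidableEq C] [Fintype C] (p : ℝ) (_ : Good p)
  (_ : (Fintype.card C : ℝ) * p = (1 + p) ^ 2) (a b : Option C) (u v : List C), ok a b →
  ∑ x : C, F p a (u ++ x :: v) b =
    al p b / (1 - p ^ (v.length + 1)) * F p none v b *
      (F p a u none - spl (fun u1 y u2 => if some y = b then
        F p a u1 b * F p b u2 none / (1 - p ^ (u2.length + 1 + (v.length + 1))) else 0) u) +
    be p a * p ^ (u.length + 1) / (1 - p ^ (u.length + 1)) * F p a u none *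
      (F p none v b - spl (fun v1 y v2 => if some y = a then
        p ^ (u.length + 1 + v1.length) / (1 - p ^ (u.length + 1 + v1.length + 1)) *
          F p none v1 a * F p a v2 b else 0) v)

/-- E1: star sum of the cyclic function -/
def S_E1 : Prop := ∀ (C : Type) [DecidableEq C] [Fintype C] (p : ℝ) (_ : Good p)
  (_ : (Fintype.card C : ℝ) * p = (1 + p) ^ 2) (w : List C),
  ∑ x : C, T p 1 (w ++ [x]) =
    (1 + p) / p * (1 - p ^ w.length) * F p none w none +
    p ^ w.length * spl (fun v b u => F p none v (some b) * F p (some b) u none) w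

/-- ROT: rotation invariance, and the recursion of `G` from the right -/
def S_ROT : Prop := ∀ (C : Type) [DecidableEq C] (p z : ℝ) (_ : Good p),
  (∀ (x : C) (w : List C), T p z (x :: w) = T p z (w ++ [x])) ∧
  (∀ (a b : Option C) (w : List C), G p z a w b =
    F1 p a w b + z * spl (fun v c u => F1 p a v (some c) * G p z (some c) u b) w) ∧
  (∀ (a b : Option C) (w : List C), G p z a w b =
    F1 p a w b + z * spl (fun v c u => G p z a v (some c) * F1 p (some c) u b) w)

/-- MIR: the mirror relations -/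
def S_MIR : Prop := ∀ (C : Type) [DecidableEq C] (p : ℝ) (_ : Good p),
  (∀ (a b : Option C) (w : List C),
    F p⁻¹ a w b = (-p) ^ w.length * F p b w.reverse a) ∧
  (∀ w : List C, T p (-p) w.reverse = (-p) ^ w.length * T p⁻¹ 1 w)

/-- WREV: reflection symmetry of the path function -/
def S_WREV : Prop := ∀ (C : Type) [DecidableEq C] (p : ℝ) (_ : Good p) (w : List C),
  F p (none : Option C) w.reverse none = F p none w none

/-- POS: positivity -/
def S_POS : Prop := ∀ (C : Type) [DecidableEq C] (p : ℝ) (_ : 0 < p) (_ : p < 1),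
  (∀ (a b : Option C) (w : List C), 0 ≤ F p a w b) ∧
  (∀ w : List C, |T p (-p) w| ≤ T p 1 w)

/-- SYM: colour symmetry and properness of the cyclic function -/
def S_SYM : Prop := ∀ (C : Type) [DecidableEq C] (p z : ℝ) (_ : Good p),
  (∀ (w : List C) (σ : Equiv.Perm C), T p z (w.map σ) = T p z w) ∧
  (∀ (x : C) (w : List C), T p z (x :: x :: w) = 0)

/-- a color-symmetric `k`-dependent `q`-coloring of all cycles, in terms of lists -/
structure Data (q k : ℕ) where
  P : List (Fin q) → ℝ
  Cy : List (Fin q) → ℝ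
  P_nil : P [] = 1
  P_star : ∀ u v : List (Fin q), ∑ s : Fin k → Fin q, P (u ++ List.ofFn s ++ v) = P u * P v
  Cy_nonneg : ∀ w, 0 ≤ Cy w
  Cy_rot : ∀ x w, Cy (x :: w) = Cy (w ++ [x])
  Cy_map : ∀ (σ : Equiv.Perm (Fin q)) w, Cy (w.map σ) = Cy w
  Cy_proper : ∀ x w, Cy (x :: x :: w) = 0
  Cy_star : ∀ w : List (Fin q), 3 ≤ w.length + k →
    ∑ s : Fin k → Fin q, Cy (w ++ List.ofFn s) = P w

/-- D1: the new colorings -/
def S_D1 : Prop := ∀ q : ℕ, 5 ≤ q → Nonempty (Data q 1)

/-- D4: the 1-dependent 4-coloring -/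
def S_D4 : Prop := Nonempty (Data 4 1)

/-- D3: the 2-dependent 3-coloring -/
def S_D3 : Prop := Nonempty (Data 3 2)

/-- mass of the colorings that agree with the partial coloring `s` -/
noncomputable def Mass {n q : ℕ} (Cf : (Fin n → Fin q) → ℝ) (s : Fin n → Option (Fin q)) : ℝ :=
  ∑ x : Fin n → Fin q, if (∀ i, s i = none ∨ s i = some (x i)) then Cf x else 0

/-- AA: combinatorial part of the assembly -/
def S_AA : Prop := ∀ (q k n : ℕ) (D : Data q k), 1 ≤ k → k ≤ 2 → 3 ≤ n →
  (∑ x : Fin n → Fin q, D.Cy (List.ofFn x) = 1) ∧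
  (∀ x : Fin n → Fin q, (∃ i j, (SimpleGraph.cycleGraph n).Adj i j ∧ x i = x j) →
    D.Cy (List.ofFn x) = 0) ∧
  (∀ s t : Fin n → Option (Fin q),
    (∀ i j, s i ≠ none → t j ≠ none → k < (SimpleGraph.cycleGraph n).dist i j) →
    Mass (fun x => D.Cy (List.ofFn x)) (fun i => (s i).or (t i)) =
      Mass (fun x => D.Cy (List.ofFn x)) s * Mass (fun x => D.Cy (List.ofFn x)) t)

/-- AB: measure theoretic part of the assembly -/
def S_AB : Prop := ∀ (q k k' n : ℕ) (Cf : (Fin n → Fin q) → ℝ), k ≤ k' →
  (∀ x, 0 ≤ Cf x) → (∑ x : Fin n → Fin q, Cf x = 1) →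
  (∀ x : Fin n → Fin q, (∃ i j, (SimpleGraph.cycleGraph n).Adj i j ∧ x i = x j) → Cf x = 0) →
  (∀ (σ : Equiv.Perm (Fin q)) (x : Fin n → Fin q), Cf (σ ∘ x) = Cf x) →
  (∀ s t : Fin n → Option (Fin q),
    (∀ i j, s i ≠ none → t j ≠ none → k < (SimpleGraph.cycleGraph n).dist i j) →
    Mass Cf (fun i => (s i).or (t i)) = Mass Cf s * Mass Cf t) →
  ∃ μ : MeasureTheory.Measure (Fin n → Fin q), MeasureTheory.IsProbabilityMeasure μ ∧
    (∀ᵐ x ∂μ, ∀ i j : Fin n, (SimpleGraph.cycleGraph n).Adj i j → x i ≠ x j) ∧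
    (∀ σ : Equiv.Perm (Fin q), μ.map (fun x : Fin n → Fin q => σ ∘ x) = μ) ∧
    (∀ A B : Set (Fin n),
      (∀ a ∈ A, ∀ b ∈ B, k' < (SimpleGraph.cycleGraph n).dist a b) →
      ProbabilityTheory.IndepFun (fun x : Fin n → Fin q => fun a : A => x a)
        (fun x : Fin n → Fin q => fun b : B => x b) μ)

end Pool.Agent.W739.CY
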